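import Mathlib
import Pool.Agent.H11.Box
set_option autoImplicit false
namespace Pool.Agent.Results.MP_9c1228_co.Counter
open Set Filter Topology MeasureTheory Asymptotics
open scoped Pointwise

/-- the Euclidean plane -/
abbrev E := EuclideanSpace ℝ (Fin 2)

/-- every tile is a translate of one of finitely many polytopes -/
def FinProto (𝒯 : Set (Set E)) : Prop :=
  ∃ F : Set (Set E), F.Finite ∧ (∀ S ∈ F, S.Finite) ∧
    ∀ T ∈ 𝒯, ∃ S ∈ F, ∃ t : E, T = t +ᵥ convexHull ℝ S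

/-- distinct tiles have disjoint interiors and meet in a face (possibly empty) -/
def FaceToFace (𝒯 : Set (Set E)) : Prop :=
  ∀ T ∈ 𝒯, ∀ T' ∈ 𝒯, T ≠ T' → Disjoint (interior T) (interior T') ∧ IsExposed ℝ T (T ∩ T')

/-- a face-to-face tiling of the plane by translates of finitely many polytopes -/
def IsTiling (𝒯 : Set (Set E)) : Prop :=
  FinProto 𝒯 ∧ (∀ T ∈ 𝒯, (interior T).Nonempty) ∧ ⋃₀ 𝒯 = univ ∧ FaceToFace 𝒯

/-- a finite union of tiles -/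
def IsPatch (𝒯 : Set (Set E)) (X : Set E) : Prop := ∃ P ⊆ 𝒯, P.Finite ∧ X = ⋃₀ P

/-- translation by `t` matches the tiles inside `X` with the tiles inside `t + X` -/
def Moves (𝒯 : Set (Set E)) (X : Set E) (t : E) : Prop := ∀ T ⊆ X, (T ∈ 𝒯 ↔ t +ᵥ T ∈ 𝒯)

/-- repetitivity -/
def Repetitive (𝒯 : Set (Set E)) : Prop :=
  ∀ X, IsPatch 𝒯 X → ∃ R > 0, ∀ c : E, ∃ t : E, t +ᵥ X ⊆ Metric.ball c R ∧ Moves 𝒯 X t

/-- deflation -/
def Deflation (𝒯 : Set (Set E)) (φ : E →ₗ[ℝ] E) : Prop :=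
  ∀ T₁ ∈ 𝒯, ∀ T₂ ∈ 𝒯, (∃ t : E, T₂ = t +ᵥ T₁) →
    ∃ s : E, φ '' T₂ = s +ᵥ φ '' T₁ ∧ Moves 𝒯 (φ '' T₁) s

/-- repetitivity, inflation and deflation for the linear map `φ` -/
def SelfAffine (𝒯 : Set (Set E)) (φ : E →ₗ[ℝ] E) : Prop :=
  IsTiling 𝒯 ∧ Repetitive 𝒯 ∧ (∀ T ∈ 𝒯, IsPatch 𝒯 (φ '' T)) ∧ Deflation 𝒯 φ

/-- the vertices of the tiles -/
def verts (𝒯 : Set (Set E)) : Set E := ⋃ T ∈ 𝒯, extremePoints ℝ T

/-- number of vertices in `X` -/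
noncomputable def cnt (𝒯 : Set (Set E)) (X : Set E) : ℝ := ((verts 𝒯 ∩ X).ncard : ℝ)

/-- area -/
noncomputable def area (X : Set E) : ℝ := (volume X).toReal

/-- length of the boundary -/
noncomputable def perim (X : Set E) : ℝ := (μH[1] (frontier X)).toReal

/-- the image of `P` under the `k`-th power of `φ` -/
def infl (φ : E →ₗ[ℝ] E) (k : ℕ) (P : Set E) : Set E := (φ ^ k : E →ₗ[ℝ] E) '' P

/-- difference of the two sides of the Pick-type formula -/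
noncomputable def err (𝒯 : Set (Set E)) (Δ : ℝ) (X : Set E) : ℝ :=
  cnt 𝒯 X - (area X / Δ + (1 / 2) * cnt 𝒯 (frontier X))

open Pool.Agent.H11.Box

def v (n : ℤ) : ℝ := ((3 * n - n % 2 : ℤ) : ℝ)
def w (m : ℤ) : ℝ := ((2 * m : ℤ) : ℝ)

theorem v_gap {n n' : ℤ} (h : n < n') : v n + 2 ≤ v n' := by
  unfold v; have : 3 * n - n % 2 + 2 ≤ 3 * n' - n' % 2 := by omega
  exact_mod_cast this
theorem w_gap {n n' : ℤ} (h : n < n') : w n + 2 ≤ w n' := by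
  unfold w; have : 2 * n + 2 ≤ 2 * n' := by omega
  exact_mod_cast this
theorem hv : StrictMono v := fun _ _ h => by linarith [v_gap h]
theorem hw : StrictMono w := fun _ _ h => by linarith [w_gap h]
theorem v1 (n : ℤ) : v n < v (n + 1) := hv (by omega)
theorem w1 (n : ℤ) : w n < w (n + 1) := hw (by omega)

def tile (n m : ℤ) : Set E := box (v n) (v (n + 1)) (w m) (w (m + 1))
def TT : Set (Set E) := {T | ∃ n m, T = tile n m}

theorem v_add (n a : ℤ) : v n + 6 * a = v (n + 2 * a) := by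
  unfold v; have : 3 * n - n % 2 + 6 * a = 3 * (n + 2 * a) - (n + 2 * a) % 2 := by omega
  exact_mod_cast this
theorem w_add (n a : ℤ) : w n + 2 * a = w (n + a) := by unfold w; push_cast; ring

theorem vadd_tile (t : E) (a b : ℤ) (h0 : t 0 = 6 * a) (h1 : t 1 = 2 * b) (n m : ℤ) :
    t +ᵥ tile n m = tile (n + 2 * a) (m + b) := by
  rw [tile, vadd_box, h0, h1, v_add, v_add, w_add, w_add, tile, add_right_comm n, add_right_comm m]

theorem moves (X : Set E) (t : E) (a b : ℤ) (h0 : t 0 = 6 * a) (h1 : t 1 = 2 * b) :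
    Moves TT X t := by
  intro T _
  constructor
  · rintro ⟨n, m, rfl⟩; exact ⟨_, _, vadd_tile t a b h0 h1 n m⟩
  · rintro ⟨n, m, h⟩
    refine ⟨n + 2 * (-a), m + (-b), ?_⟩
    rw [← neg_vadd_vadd t T, h]
    exact vadd_tile (-t) (-a) (-b) (by simp [h0]) (by simp [h1]) n m

theorem patch_box (N1 N2 M1 M2 : ℤ) (h1 : N1 + 1 ≤ N2) (h2 : M1 + 1 ≤ M2) :
    IsPatch TT (box (v N1) (v N2) (w M1) (w M2)) := by
  refine ⟨(fun q : ℤ × ℤ => tile q.1 q.2) '' (Ico N1 N2 ×ˢ Ico M1 M2), ?_,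
    ((finite_Ico _ _).prod (finite_Ico _ _)).image _, ?_⟩
  · rintro _ ⟨q, -, rfl⟩; exact ⟨_, _, rfl⟩
  · ext p
    simp only [sUnion_image, mem_iUnion]
    constructor
    · rintro ⟨⟨a1, a2⟩, a3, a4⟩
      obtain ⟨n, b1, b2, b3⟩ := find_idx v N1 N2 h1 _ a1 a2
      obtain ⟨m, c1, c2, c3⟩ := find_idx w M1 M2 h2 _ a3 a4
      exact ⟨(n, m), ⟨⟨b1, b2⟩, c1, c2⟩, b3, c3⟩
    · rintro ⟨⟨n, m⟩, ⟨⟨b1, b2⟩, c1, c2⟩, ⟨a1, a2⟩, a3, a4⟩
      exact ⟨⟨(hv.monotone b1).trans a1, a2.trans (hv.monotone b2)⟩,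
        (hw.monotone c1).trans a3, a4.trans (hw.monotone c2)⟩

theorem tiling : IsTiling TT := by
  refine ⟨⟨{h.symm '' (({v 0, v (0 + 1)} : Set ℝ) ×ˢ ({w 0, w (0 + 1)} : Set ℝ)),
    h.symm '' (({v 1, v (1 + 1)} : Set ℝ) ×ˢ ({w 0, w (0 + 1)} : Set ℝ))}, toFinite _, ?_, ?_⟩,
    ?_, ?_, ?_⟩
  · rintro S (rfl | rfl) <;> exact (toFinite _).image _
  · rintro _ ⟨n, m, rfl⟩
    rcases Int.emod_two_eq_zero_or_one n with hn | hn
    · refine ⟨_, Or.inl rfl, !₂[6 * ((n / 2 : ℤ) : ℝ), 2 * (m : ℝ)], ?_⟩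
      rw [← hull_box _ _ _ _ (v1 _).le (w1 _).le]
      have := vadd_tile !₂[6 * ((n / 2 : ℤ) : ℝ), 2 * (m : ℝ)] (n / 2) m rfl rfl 0 0
      rw [show 0 + 2 * (n / 2) = n by omega, zero_add] at this
      exact this.symm
    · refine ⟨_, Or.inr rfl, !₂[6 * ((n / 2 : ℤ) : ℝ), 2 * (m : ℝ)], ?_⟩
      rw [← hull_box _ _ _ _ (v1 _).le (w1 _).le]
      have := vadd_tile !₂[6 * ((n / 2 : ℤ) : ℝ), 2 * (m : ℝ)] (n / 2) m rfl rfl 1 0
      rw [show 1 + 2 * (n / 2) = n by omega, zero_add] at this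
      exact this.symm
  · rintro _ ⟨n, m, rfl⟩
    rw [tile, interior_box]
    have := v1 n; have := w1 m
    refine ⟨!₂[(v n + v (n + 1)) / 2, (w m + w (m + 1)) / 2], ⟨?_, ?_⟩, ?_, ?_⟩ <;> simp <;> linarith
  · apply eq_univ_of_forall
    intro p
    have a1 := Int.floor_le (p 0 / 6)
    have a2 := Int.lt_floor_add_one (p 0 / 6)
    have a3 := Int.floor_le (p 1 / 2)
    have a4 := Int.lt_floor_add_one (p 1 / 2)
    have e1 := v_add 0 ⌊p 0 / 6⌋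
    have e2 := v_add 0 (⌊p 0 / 6⌋ + 1)
    have e0 : v 0 = 0 := by simp [v]
    push_cast at e2
    obtain ⟨n, -, -, b⟩ := find_idx v (0 + 2 * ⌊p 0 / 6⌋) (0 + 2 * (⌊p 0 / 6⌋ + 1)) (by omega) (p 0)
      (by linarith) (by linarith)
    refine ⟨_, ⟨n, ⌊p 1 / 2⌋, rfl⟩, b, ?_, ?_⟩ <;> unfold w <;> push_cast <;> linarith
  · rintro _ ⟨n, m, rfl⟩ _ ⟨n', m', rfl⟩ hne
    constructor
    · rw [tile, tile, interior_box, interior_box, disjoint_left]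
      rintro p ⟨⟨a1, a2⟩, a3, a4⟩ ⟨⟨b1, b2⟩, b3, b4⟩
      have c1 := hv.lt_iff_lt.mp (a1.trans b2)
      have c2 := hv.lt_iff_lt.mp (b1.trans a2)
      have c3 := hw.lt_iff_lt.mp (a3.trans b4)
      have c4 := hw.lt_iff_lt.mp (b3.trans a4)
      exact hne (by rw [show n = n' by omega, show m = m' by omega])
    · rintro ⟨z, hz, hz'⟩
      obtain ⟨e1, h1⟩ := face1 v hv n n' _ hz.1 hz'.1
      obtain ⟨e2, h2⟩ := face1 w hw m m' _ hz.2 hz'.2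
      refine ⟨e1 • EuclideanSpace.proj (0 : Fin 2) + e2 • EuclideanSpace.proj (1 : Fin 2), ?_⟩
      ext x
      simp only [mem_inter_iff, mem_ofPred_eq, add_apply,
        smul_apply, EuclideanSpace.coe_proj, smul_eq_mul]
      refine and_congr_right (fun hx => ⟨fun hx' y hy => ?_, fun hx' => ⟨?_, ?_⟩⟩)
      · exact add_le_add ((h1 _ hx.1).1 hx'.1 _ hy.1) ((h2 _ hx.2).1 hx'.2 _ hy.2)
      · refine (h1 _ hx.1).2 (fun y hy => ?_)
        simpa using hx' !₂[y, x 1] ⟨hy, hx.2⟩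
      · refine (h2 _ hx.2).2 (fun y hy => ?_)
        simpa using hx' !₂[x 0, y] ⟨hx.1, hy⟩

theorem v4 (n : ℤ) : 4 * v n = v (4 * n - n % 2) := by
  unfold v; have : 4 * (3 * n - n % 2) = 3 * (4 * n - n % 2) - (4 * n - n % 2) % 2 := by omega
  exact_mod_cast this
theorem w4 (n : ℤ) : 4 * w n = w (4 * n) := by unfold w; push_cast; ring

theorem selfAffine : SelfAffine TT ((4 : ℝ) • LinearMap.id) := by
  refine ⟨tiling, ?_, ?_, ?_⟩
  · rintro _ ⟨P, hP, hf, rfl⟩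
    have hb : Bornology.IsBounded (⋃₀ P) := (Bornology.isBounded_sUnion hf).2 (fun T hT => by
      obtain ⟨n, m, rfl⟩ := hP hT; exact bdd_box _ _ _ _)
    obtain ⟨r, hr, hb⟩ := hb.exists_pos_norm_lt
    refine ⟨r + 8, by positivity, fun c => ⟨!₂[6 * ((⌊c 0 / 6⌋ : ℤ) : ℝ), 2 * ((⌊c 1 / 2⌋ : ℤ) : ℝ)],
      ?_, moves _ _ _ _ rfl rfl⟩⟩
    rintro _ ⟨p, hp, rfl⟩
    have a1 := Int.floor_le (c 0 / 6)
    have a2 := Int.lt_floor_add_one (c 0 / 6)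
    have a3 := Int.floor_le (c 1 / 2)
    have a4 := Int.lt_floor_add_one (c 1 / 2)
    have : dist (!₂[6 * ((⌊c 0 / 6⌋ : ℤ) : ℝ), 2 * ((⌊c 1 / 2⌋ : ℤ) : ℝ)] : E) c ≤ 8 := by
      rw [EuclideanSpace.dist_eq]
      apply Real.sqrt_le_iff.mpr ⟨by norm_num, ?_⟩
      simp only [Fin.sum_univ_two, Real.dist_eq, sq_abs, Matrix.cons_val_zero, Matrix.cons_val_one]
      nlinarith
    have h2 := hb p hp
    simp only [Metric.mem_ball, vadd_eq_add]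
    refine (dist_triangle _ (!₂[6 * ((⌊c 0 / 6⌋ : ℤ) : ℝ), 2 * ((⌊c 1 / 2⌋ : ℤ) : ℝ)] : E) _).trans_lt ?_
    rw [dist_eq_norm (_ + p), add_sub_cancel_left]
    linarith
  · rintro _ ⟨n, m, rfl⟩
    have := smul_box 4 (by norm_num) (v n) (v (n + 1)) (w m) (w (m + 1))
    rw [v4, v4, w4, w4] at this
    exact this ▸ patch_box _ _ _ _ (by omega) (by omega)
  · rintro _ ⟨n, m, rfl⟩ _ ⟨n', m', rfl⟩ ⟨t, ht⟩
    have ht' := ht
    rw [tile, tile, vadd_box] at ht'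
    obtain ⟨a1, a2, a3, -⟩ := box_inj (v1 _).le (w1 _).le (by linarith [v1 n]) (by linarith [w1 m]) ht'
    have b1 : v (n' + 1) - v n' = v (n + 1) - v n := by linarith
    have b2 : n' % 2 = n % 2 := by
      unfold v at b1
      have : 3 * (n' + 1) - (n' + 1) % 2 - (3 * n' - n' % 2) =
        3 * (n + 1) - (n + 1) % 2 - (3 * n - n % 2) := by exact_mod_cast b1
      omega
    have b3 := v_add n ((n' - n) / 2)
    rw [show n + 2 * ((n' - n) / 2) = n' by omega] at b3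
    have b4 := w_add m (m' - m)
    rw [show m + (m' - m) = m' by omega] at b4
    refine ⟨(4 : ℝ) • t, ?_, moves _ _ (4 * ((n' - n) / 2)) (4 * (m' - m)) ?_ ?_⟩
    · rw [ht]
      ext p
      constructor
      · rintro ⟨_, ⟨q, hq, rfl⟩, rfl⟩; exact ⟨_, ⟨q, hq, rfl⟩, by simp⟩
      · rintro ⟨_, ⟨q, hq, rfl⟩, rfl⟩; exact ⟨_, ⟨q, hq, rfl⟩, by simp⟩
    · rw [Int.cast_mul, PiLp.smul_apply, smul_eq_mul, Int.cast_ofNat]; linarith
    · rw [Int.cast_mul, PiLp.smul_apply, smul_eq_mul, Int.cast_ofNat]; linarith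

def pt (q : ℤ × ℤ) : E := !₂[v q.1, w q.2]

theorem pt_inj : Function.Injective pt := fun q q' e =>
  Prod.ext (hv.injective (congrArg (fun p : E => p 0) e)) (hw.injective (congrArg (fun p : E => p 1) e))

theorem verts_eq : verts TT = range pt := by
  ext p
  simp only [verts, mem_iUnion]
  constructor
  · rintro ⟨_, ⟨n, m, rfl⟩, hp⟩
    rw [tile, ext_box _ _ _ _ (v1 _).le (w1 _).le] at hp
    obtain ⟨a | a, b | b⟩ := hp
    exacts [⟨(n, m), ext2 a.symm b.symm⟩, ⟨(n, m + 1), ext2 a.symm b.symm⟩,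
      ⟨(n + 1, m), ext2 a.symm b.symm⟩, ⟨(n + 1, m + 1), ext2 a.symm b.symm⟩]
  · rintro ⟨⟨n, m⟩, rfl⟩
    refine ⟨_, ⟨n, m, rfl⟩, ?_⟩
    rw [tile, ext_box _ _ _ _ (v1 _).le (w1 _).le]
    exact ⟨Or.inl rfl, Or.inl rfl⟩

theorem sep : ∀ p ∈ verts TT, ∀ q ∈ verts TT, p ≠ q → 2 ≤ dist p q := by
  rw [verts_eq]
  rintro _ ⟨⟨n, m⟩, rfl⟩ _ ⟨⟨n', m'⟩, rfl⟩ hne
  have d0 : |v n - v n'| ≤ dist (pt (n, m)) (pt (n', m')) := PiLp.dist_apply_le (pt (n, m)) (pt (n', m')) 0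
  have d1 : |w m - w m'| ≤ dist (pt (n, m)) (pt (n', m')) := PiLp.dist_apply_le (pt (n, m)) (pt (n', m')) 1
  rw [abs_le] at d0 d1
  rcases lt_trichotomy n n' with h | rfl | h
  · linarith [v_gap h]
  · rcases lt_trichotomy m m' with h | rfl | h
    · linarith [w_gap h]
    · exact absurd rfl hne
    · linarith [w_gap h]
  · linarith [v_gap h]

theorem cnt1 (N M : ℤ) : verts TT ∩ box (v 0) (v N) (w 0) (w M) =
    pt '' ↑(Finset.Icc 0 N ×ˢ Finset.Icc 0 M) := by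
  rw [verts_eq]
  ext p
  constructor
  · rintro ⟨⟨q, rfl⟩, ⟨a1, a2⟩, a3, a4⟩
    refine ⟨q, ?_, rfl⟩
    simp only [Finset.coe_product, Finset.coe_Icc, mem_prod, mem_Icc]
    exact ⟨⟨hv.le_iff_le.mp a1, hv.le_iff_le.mp a2⟩, hw.le_iff_le.mp a3, hw.le_iff_le.mp a4⟩
  · rintro ⟨q, hq, rfl⟩
    simp only [Finset.coe_product, Finset.coe_Icc, mem_prod, mem_Icc] at hq
    exact ⟨⟨q, rfl⟩, ⟨hv.monotone hq.1.1, hv.monotone hq.1.2⟩, hw.monotone hq.2.1, hw.monotone hq.2.2⟩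

theorem cnt2 (N M : ℤ) : verts TT ∩ frontier (box (v 0) (v N) (w 0) (w M)) =
    pt '' ↑((Finset.Icc 0 N ×ˢ Finset.Icc 0 M) \ (Finset.Ioo 0 N ×ˢ Finset.Ioo 0 M)) := by
  rw [(closed_box _ _ _ _).frontier_eq, ← inter_sdiff_assoc, cnt1, interior_box, Finset.coe_sdiff,
    image_sdiff pt_inj]
  ext p
  refine and_congr_right ?_
  rintro ⟨q, -, rfl⟩
  rw [pt_inj.mem_set_image]
  simp only [Finset.coe_product, Finset.coe_Ioo, mem_prod, mem_Ioo]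
  exact not_congr (and_congr (and_congr hv.lt_iff_lt hv.lt_iff_lt) (and_congr hw.lt_iff_lt hw.lt_iff_lt))

theorem stage (k : ℕ) : ∃ N : ℕ, 3 * (N : ℝ) = 2 * 4 ^ k + 1 ∧ 1 ≤ N ∧
    ((((4 : ℝ) • LinearMap.id : E →ₗ[ℝ] E) ^ k : E →ₗ[ℝ] E) '' tile 0 0 =
      box (v 0) (v N) (w 0) (w (4 ^ k : ℕ))) ∧ v N = 2 * 4 ^ k := by
  have : ∃ N : ℕ, 3 * N = 2 * 4 ^ k + 1 := by
    induction k with
    | zero => exact ⟨1, rfl⟩
    | succ k ih => obtain ⟨N, h⟩ := ih; exact ⟨4 * N - 1, by omega⟩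
  obtain ⟨N, hN⟩ := this
  have e : v N = 2 * 4 ^ k := by
    unfold v
    have h1 : (3 * (N : ℤ)) = 2 * 4 ^ k + 1 := by exact_mod_cast hN
    have : (3 * (N : ℤ) - N % 2) = 2 * 4 ^ k := by omega
    exact_mod_cast this
  refine ⟨N, by exact_mod_cast hN, by omega, ?_, e⟩
  have := smul_box (4 ^ k) (by positivity) (v 0) (v (0 + 1)) (w 0) (w (0 + 1))
  rw [e]
  convert this using 2
  · ext p; rw [smul_pow, ← Module.End.one_eq_id, one_pow]; rfl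
  all_goals simp [v, w, mul_comm, tile]

theorem vals (k : ℕ) :
    let X := (((4 : ℝ) • LinearMap.id : E →ₗ[ℝ] E) ^ k : E →ₗ[ℝ] E) '' tile 0 0
    ((verts TT ∩ X).ncard : ℝ) = (2 * 4 ^ k + 4) / 3 * (4 ^ k + 1) ∧
    ((verts TT ∩ frontier X).ncard : ℝ) = 2 * (2 * 4 ^ k + 1) / 3 + 2 * 4 ^ k ∧
    (volume X).toReal = 4 * 4 ^ k * 4 ^ k ∧ (μH[1] (frontier X)).toReal ≤ 8 * 4 ^ k := by
  obtain ⟨N, h1, h2, h3, h4⟩ := stage k
  have hM : 1 ≤ 4 ^ k := Nat.one_le_pow _ _ (by norm_num)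
  have hM' : ((4 ^ k : ℕ) : ℝ) = 4 ^ k := by push_cast; rfl
  have hw' : w (4 ^ k : ℕ) = 2 * 4 ^ k := by simp [w]
  have hp : (0 : ℝ) < 2 * 4 ^ k := by positivity
  have v0 : v 0 = 0 := by simp [v]
  have w0 : w 0 = 0 := by simp [w]
  intro X
  rw [show X = _ from h3]
  refine ⟨?_, ?_, ?_, ?_⟩
  · rw [cnt1, ncard_image_of_injective _ pt_inj, ncard_coe_finset, Finset.card_product, Int.card_Icc,
      Int.card_Icc]
    generalize 4 ^ k = M at hM' ⊢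
    rw [show ((N : ℤ) + 1 - 0).toNat = N + 1 by omega, show ((M : ℤ) + 1 - 0).toNat = M + 1 by omega]
    push_cast; rw [hM']; congr 1; linarith
  · rw [cnt2, ncard_image_of_injective _ pt_inj, ncard_coe_finset,
      Finset.card_sdiff_of_subset (Finset.product_subset_product Finset.Ioo_subset_Icc_self
        Finset.Ioo_subset_Icc_self), Finset.card_product, Finset.card_product, Int.card_Icc,
      Int.card_Icc, Int.card_Ioo, Int.card_Ioo]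
    generalize 4 ^ k = M at hM' hM ⊢
    obtain ⟨N, rfl⟩ := Nat.exists_eq_add_of_le' h2
    obtain ⟨M, rfl⟩ := Nat.exists_eq_add_of_le' hM
    rw [show (((N + 1 : ℕ) : ℤ) + 1 - 0).toNat = N + 2 by omega,
      show (((M + 1 : ℕ) : ℤ) + 1 - 0).toNat = M + 2 by omega,
      show (((N + 1 : ℕ) : ℤ) - 0 - 1).toNat = N by omega,
      show (((M + 1 : ℕ) : ℤ) - 0 - 1).toNat = M by omega,
      show (N + 2) * (M + 2) - N * M = 2 * (N + 1) + 2 * (M + 1) by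
        rw [show (N + 2) * (M + 2) = 2 * (N + 1) + 2 * (M + 1) + N * M by ring]; omega]
    push_cast at h1 hM' ⊢; linarith
  · rw [v0, w0, h4, hw', vol_box _ _ _ _ hp.le hp.le]; ring
  · rw [v0, w0, h4, hw']; linarith [surf_box _ hp]

/-- A self-affine tiling of the plane (with `φ = 4 · id`) and a patch `P` for which the error in the
Pick-type formula is not `o` of the boundary length. -/
theorem result : ∃ (𝒯 : Set (Set E)) (φ : E →ₗ[ℝ] E) (P : Set E) (Δ : ℝ),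
    φ = (4 : ℝ) • LinearMap.id ∧ SelfAffine 𝒯 φ ∧
    (∀ p ∈ verts 𝒯, ∀ q ∈ verts 𝒯, p ≠ q → 2 ≤ dist p q) ∧ IsPatch 𝒯 P ∧ 0 < Δ ∧
    Tendsto (fun k : ℕ => area (infl φ k P) / cnt 𝒯 (infl φ k P)) atTop (𝓝 Δ) ∧
    ¬ (fun k : ℕ => err 𝒯 Δ (infl φ k P)) =o[atTop] (fun k : ℕ => perim (infl φ k P)) := by
  refine ⟨TT, _, tile 0 0, 6, rfl, selfAffine, sep, patch_box _ _ _ _ le_rfl le_rfl, by norm_num, ?_, ?_⟩
  · have h0 : Tendsto (fun k : ℕ => ((4 : ℝ) ^ k)⁻¹) atTop (𝓝 0) :=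
      tendsto_inv_atTop_zero.comp (tendsto_pow_atTop_atTop_of_one_lt (by norm_num))
    have h1 := (tendsto_const_nhds (x := (6 : ℝ))).div
      (((h0.const_mul 2).const_add 1).mul (h0.const_add 1)) (by norm_num)
    simp only [mul_zero, add_zero, mul_one, div_one] at h1
    refine h1.congr (fun k => ?_)
    unfold area cnt infl
    rw [(vals k).1, (vals k).2.2.1, Pi.div_apply]
    field_simp
    ring
  · intro h
    obtain ⟨k, hk⟩ := (h.def (show (0 : ℝ) < 1 / 100 by norm_num)).exists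
    obtain ⟨a1, a2, a3, a4⟩ := vals k
    unfold err perim area cnt infl at hk
    rw [a1, a2, a3, Real.norm_of_nonneg ENNReal.toReal_nonneg] at hk
    have := (le_abs_self _).trans hk
    have hp : (0 : ℝ) < 4 ^ k := by positivity
    nlinarith

end Pool.Agent.Results.MP_9c1228_co.Counter
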